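import Mathlib
import Pool.Agent.Helper281.Sh.Star
import Pool.Agent.Helper281.Sh.Upper
import Pool.Agent.Results.MP_d50107_co.ThreeSets

set_option autoImplicit false

open Finset
open scoped FinsetFamily

namespace Pool.Agent.Results.MP_ed1e41_co.ThreeSets

/-- `F` is a `t`-intersecting family of `m` sets, each with `k` elements, in `Fin n`. -/
def IsTIntersecting (n k t m : ℕ) (F : Finset (Finset (Fin n))) : Prop :=
  (∀ A ∈ F, #A = k) ∧ (∀ A ∈ F, ∀ B ∈ F, t ≤ #(A ∩ B)) ∧ #F = m

/-- `f(n,k,t,m)`: the minimum size of the shadow `∂ F` of such an `F`. -/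
noncomputable def f (n k t m : ℕ) : ℕ :=
  sInf {c | ∃ F : Finset (Finset (Fin n)), IsTIntersecting n k t m F ∧ #(∂ F) = c}

theorem iff_one {n k m : ℕ} {F : Finset (Finset (Fin n))} :
    IsTIntersecting n k 1 m F ↔
      Pool.Agent.Results.MP_d50107_co.ThreeSets.IsIntersecting n k m F := by
  unfold IsTIntersecting Pool.Agent.Results.MP_d50107_co.ThreeSets.IsIntersecting
  simp only [Nat.one_le_iff_ne_zero, ne_eq, card_eq_zero, nonempty_iff_ne_empty]

theorem f_eq {n k m : ℕ} : f n k 1 m = Pool.Agent.Results.MP_d50107_co.ThreeSets.s n k m := by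
  unfold f Pool.Agent.Results.MP_d50107_co.ThreeSets.s
  simp only [iff_one]

/-- For `m ≥ 28`: 1-intersecting families of `m` 3-sets in `Fin n` exist exactly when
`m ≤ C(n-1,2)`, and the minimum size of the shadow is `m+2` or `m+3` for `m ≤ 3n-8`
and `m + x`, `x` least with `m ≤ C(x,2)`, for `m > 3n-8`. -/
theorem result (n m : ℕ) (hm : 28 ≤ m) :
    ((∃ F : Finset (Finset (Fin n)), IsTIntersecting n 3 1 m F) ↔ m ≤ (n - 1).choose 2) ∧
    (m + 8 ≤ 3 * n → f n 3 1 m = if m % 3 = 1 then m + 2 else m + 3) ∧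
    (3 * n < m + 8 → m ≤ (n - 1).choose 2 →
      f n 3 1 m = m + sInf {x : ℕ | m ≤ x.choose 2}) := by
  simp only [iff_one, f_eq]
  exact Pool.Agent.Results.MP_d50107_co.ThreeSets.result n m hm

end Pool.Agent.Results.MP_ed1e41_co.ThreeSets
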